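import Pool.Agent.H564R3.DR.Wang

set_option autoImplicit false

/-! # Block configurations on `ℤ²` -/

namespace Pool.Agent.H564R3.SBC

open Pool.Agent.Helper777.Prof

/-- the positions -/
abbrev Pos : Type := Fin 2 → ℤ

/-- a vector -/
def off (x y : ℤ) : Pos := ![x, y]

@[simp] lemma off_zero (x y : ℤ) : off x y 0 = x := rfl
@[simp] lemma off_one (x y : ℤ) : off x y 1 = y := rfl

lemma pos_ext {v w : Pos} (h0 : v 0 = w 0) (h1 : v 1 = w 1) : v = w := by
  funext c
  fin_cases c
  · exact h0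
  · exact h1

/-- number of Wang tiles -/
noncomputable def NN : ℕ := Fintype.card KT

/-- code of a Wang tile -/
noncomputable def code (t : KT) : ℕ := ((Fintype.equivFin KT t : Fin (Fintype.card KT)) : ℕ)

lemma code_lt (t : KT) : code t < NN := (Fintype.equivFin KT t).isLt

lemma code_inj {t t' : KT} (h : code t = code t') : t = t' :=
  (Fintype.equivFin KT).injective (Fin.ext h)

/-- block size -/
noncomputable def KK (s : ℕ) : ℕ := 2 * s + NN + 1

lemma KK_pos (s : ℕ) : (0 : ℤ) < (KK s : ℤ) := by unfold KK; positivity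

lemma KK_cast (s : ℕ) : (KK s : ℤ) = 2 * s + NN + 1 := by unfold KK; push_cast; ring

attribute [irreducible] NN KK code

/-- the configuration that codes a Wang tiling: corners `1`, markers `2`, blanks `0` -/
noncomputable def cfg (s : ℕ) (τ : ℤ → ℤ → KT) : Pos → Fin 3 := fun i =>
  if i 0 % (KK s : ℤ) = 0 ∧ i 1 % (KK s : ℤ) = 0 then 1
  else if i 0 % (KK s : ℤ) = s ∧
    i 1 % (KK s : ℤ) = s + code (τ (i 0 / (KK s : ℤ)) (i 1 / (KK s : ℤ))) then 2
  else 0

variable {s : ℕ} {τ : ℤ → ℤ → KT}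

lemma cfg_eq_one {i : Pos} : cfg s τ i = 1 ↔ i 0 % (KK s : ℤ) = 0 ∧ i 1 % (KK s : ℤ) = 0 := by
  unfold cfg
  split_ifs with h1 h2
  · simp [h1]
  · simp only [h1, iff_false]; decide
  · simp only [h1, iff_false]; decide

lemma cfg_eq_two (hs : 0 < s) {i : Pos} : cfg s τ i = 2 ↔ i 0 % (KK s : ℤ) = s ∧
    i 1 % (KK s : ℤ) = s + code (τ (i 0 / (KK s : ℤ)) (i 1 / (KK s : ℤ))) := by
  unfold cfg
  split_ifs with h1 h2
  · constructor
    · intro h; exact absurd h (by decide)
    · rintro ⟨h, -⟩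
      rw [h1.1] at h
      omega
  · simp [h2]
  · simp only [h2, iff_false]; decide

/-- residues of close numbers -/
lemma close {K x y : ℤ} (hK : 0 < K) (h : x / K = y / K) : x - y = x % K - y % K := by
  have h1 := Int.mul_ediv_add_emod x K
  have h2 := Int.mul_ediv_add_emod y K
  rw [h] at h1
  linarith

lemma far {K x y : ℤ} (hK : 0 < K) (h : x / K < y / K) : K + y % K - x % K ≤ y - x := by
  have h1 := Int.mul_ediv_add_emod x K
  have h2 := Int.mul_ediv_add_emod y K
  have h3 : K * (x / K + 1) ≤ K * (y / K) := mul_le_mul_of_nonneg_left h hK.le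
  have h4 : K * (x / K + 1) = K * (x / K) + K := by ring
  linarith

/-- two special tiles are far away from each other -/
lemma special_far (hs : 0 < s) {i j : Pos} (hi : cfg s τ i ≠ 0) (hj : cfg s τ j ≠ 0)
    (h0 : |i 0 - j 0| < s) (h1 : |i 1 - j 1| < s) : i = j := by
  have hK := KK_pos s
  have hKs : (KK s : ℤ) = 2 * s + NN + 1 := KK_cast s
  have htri : ∀ i : Pos, cfg s τ i ≠ 0 → cfg s τ i = 1 ∨ cfg s τ i = 2 := by
    intro i hi
    have : ∀ x : Fin 3, x ≠ 0 → x = 1 ∨ x = 2 := by decide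
    exact this _ hi
  rw [abs_lt] at h0 h1
  -- main case analysis for one coordinate
  have key : ∀ x y : ℤ, -(s : ℤ) < x - y → x - y < s → x % (KK s : ℤ) = y % (KK s : ℤ) → x = y := by
    intro x y h1 h2 h3
    rcases lt_trichotomy (x / (KK s : ℤ)) (y / (KK s : ℤ)) with h | h | h
    · have := far hK h
      omega
    · have := close hK h
      omega
    · have := far hK h
      omega
  have key2 : ∀ x y : ℤ, -(s : ℤ) < x - y → x - y < s → x % (KK s : ℤ) = 0 →
      y % (KK s : ℤ) = s → False := by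
    intro x y h1 h2 h3 h4
    rcases lt_trichotomy (x / (KK s : ℤ)) (y / (KK s : ℤ)) with h | h | h
    · have := far hK h
      omega
    · have := close hK h
      omega
    · have := far hK h
      omega
  rcases htri i hi with hi' | hi' <;> rcases htri j hj with hj' | hj'
  · rw [cfg_eq_one] at hi' hj'
    funext c
    fin_cases c
    · exact key _ _ h0.1 h0.2 (hi'.1.trans hj'.1.symm)
    · exact key _ _ h1.1 h1.2 (hi'.2.trans hj'.2.symm)
  · rw [cfg_eq_one] at hi'
    rw [cfg_eq_two hs] at hj'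
    exact (key2 _ _ h0.1 h0.2 hi'.1 hj'.1).elim
  · rw [cfg_eq_two hs] at hi'
    rw [cfg_eq_one] at hj'
    exact (key2 (j 0) (i 0) (by omega) (by omega) hj'.1 hi'.1).elim
  · rw [cfg_eq_two hs] at hi' hj'
    have e0 : i 0 = j 0 := key _ _ h0.1 h0.2 (hi'.1.trans hj'.1.symm)
    have c1 := code_lt (τ (i 0 / (KK s : ℤ)) (i 1 / (KK s : ℤ)))
    have c2 := code_lt (τ (j 0 / (KK s : ℤ)) (j 1 / (KK s : ℤ)))
    have e1 : i 1 = j 1 := by
      rcases lt_trichotomy (i 1 / (KK s : ℤ)) (j 1 / (KK s : ℤ)) with h | h | h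
      · have := far hK h
        omega
      · have h2 := close hK h
        have h3 := hi'.2
        rw [e0, h, ← hj'.2] at h3
        rw [h3] at h2
        omega
      · have := far hK h
        omega
    funext c
    fin_cases c
    · exact e0
    · exact e1

/-- the box `[0, n)²` -/
noncomputable def box (n : ℕ) : Finset Pos := Fintype.piFinset fun _ => Finset.Ico (0 : ℤ) n

lemma mem_box {n : ℕ} {v : Pos} : v ∈ box n ↔ (0 ≤ v 0 ∧ v 0 < n) ∧ (0 ≤ v 1 ∧ v 1 < n) := by
  unfold box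
  rw [Fintype.mem_piFinset]
  simp only [Finset.mem_Ico]
  constructor
  · intro h; exact ⟨h 0, h 1⟩
  · rintro ⟨h0, h1⟩ c
    fin_cases c
    · exact h0
    · exact h1

/-- indicator -/
noncomputable def ind (p : Prop) [Decidable p] : ℝ := if p then 1 else 0

lemma ind_le (p : Prop) [Decidable p] : |ind p| ≤ 1 := by unfold ind; split_ifs <;> simp

/-- exactly one corner in each box -/
lemma sum_corner (b : Pos) : ∑ v ∈ box (KK s), ind (cfg s τ (v + b) = 1) = 1 := by
  have hK := KK_pos s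
  have hne := hK.ne'
  set v0 : Pos := off ((-b 0) % (KK s : ℤ)) ((-b 1) % (KK s : ℤ)) with hv0
  have hmem : v0 ∈ box (KK s) := by
    rw [mem_box]
    exact ⟨⟨Int.emod_nonneg _ hne, Int.emod_lt_of_pos _ hK⟩,
      ⟨Int.emod_nonneg _ hne, Int.emod_lt_of_pos _ hK⟩⟩
  have hz : ∀ x : ℤ, ((-x) % (KK s : ℤ) + x) % (KK s : ℤ) = 0 := by
    intro x
    rw [Int.emod_add_emod, neg_add_cancel, Int.zero_emod]
  rw [Finset.sum_eq_single v0]
  · rw [ind, if_pos]
    rw [cfg_eq_one]
    exact ⟨hz _, hz _⟩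
  · intro v hv hne'
    rw [ind, if_neg]
    rw [cfg_eq_one]
    rintro ⟨h1, h2⟩
    apply hne'
    rw [mem_box] at hv
    have key : ∀ x y : ℤ, 0 ≤ y → y < (KK s : ℤ) → (y + x) % (KK s : ℤ) = 0 →
        y = (-x) % (KK s : ℤ) := by
      intro x y h1 h2 h3
      have h4 : (-x) % (KK s : ℤ) = y % (KK s : ℤ) := by
        obtain ⟨q, hq⟩ := Int.dvd_of_emod_eq_zero h3
        have h5 : -x = y + (KK s : ℤ) * (-q) := by rw [mul_neg, ← hq]; ring
        rw [h5, Int.add_mul_emod_self_left]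
      rw [h4, Int.emod_eq_of_lt h1 h2]
    have e0 : v 0 = (-b 0) % (KK s : ℤ) := key (b 0) (v 0) hv.1.1 hv.1.2 h1
    have e1 : v 1 = (-b 1) % (KK s : ℤ) := key (b 1) (v 1) hv.2.1 hv.2.2 h2
    apply pos_ext
    · rw [hv0, off_zero]; exact e0
    · rw [hv0, off_one]; exact e1
  · intro h; exact (h hmem).elim

lemma emod_add_small {K x y : ℤ} (hx : x % K = 0) (h1 : 0 ≤ y) (h2 : y < K) :
    (x + y) % K = y ∧ (x + y) / K = x / K := by
  obtain ⟨q, rfl⟩ := Int.dvd_of_emod_eq_zero hx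
  have hK : K ≠ 0 := by omega
  rw [Int.mul_add_emod_self_left, Int.emod_eq_of_lt h1 h2, Int.mul_ediv_cancel_left _ hK]
  refine ⟨rfl, ?_⟩
  rw [add_comm, Int.add_mul_ediv_left _ _ hK, Int.ediv_eq_zero_of_lt h1 h2, zero_add]

/-- the marker that belongs to a corner -/
lemma marker_of_corner (hs : 0 < s) {i : Pos} (hi : cfg s τ i = 1) {j : ℕ} (hj : j < NN) :
    cfg s τ (i + off s (s + j)) = 2 ↔ j = code (τ (i 0 / (KK s : ℤ)) (i 1 / (KK s : ℤ))) := by
  have hK := KK_pos s
  have hKs : (KK s : ℤ) = 2 * s + NN + 1 := KK_cast s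
  rw [cfg_eq_one] at hi
  rw [cfg_eq_two hs]
  obtain ⟨a1, a2⟩ := emod_add_small (K := (KK s : ℤ)) (y := s) hi.1 (by omega) (by omega)
  obtain ⟨b1, b2⟩ := emod_add_small (K := (KK s : ℤ)) (y := s + j) hi.2 (by omega) (by omega)
  simp only [Pi.add_apply, off_zero, off_one]
  rw [a1, a2, b1, b2]
  constructor
  · rintro ⟨-, h⟩; omega
  · intro h; exact ⟨rfl, by omega⟩

lemma sum_marker_of_corner (hs : 0 < s) (i : Pos) :
    ∑ j ∈ Finset.range NN, ind (cfg s τ i = 1) * ind (cfg s τ (i + off s (s + j)) = 2) =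
      ind (cfg s τ i = 1) := by
  rw [← Finset.mul_sum]
  by_cases hi : cfg s τ i = 1
  · rw [Finset.sum_eq_single (code (τ (i 0 / (KK s : ℤ)) (i 1 / (KK s : ℤ))))]
    · have h2 := (marker_of_corner (τ := τ) hs hi (code_lt _)).2 rfl
      rw [ind, ind, if_pos hi, if_pos h2, one_mul]
    · intro j hj hne
      rw [ind, if_neg]
      intro h
      exact hne ((marker_of_corner hs hi (Finset.mem_range.1 hj)).1 h)
    · intro h; exact absurd (Finset.mem_range.2 (code_lt _)) h
  · rw [ind, if_neg hi, zero_mul]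

/-- the corner that belongs to a marker -/
lemma sum_corner_of_marker' (hs : 0 < s) (i : Pos) :
    ∑ j ∈ Finset.range NN, ind (cfg s τ (i - off s (s + j)) = 1) * ind (cfg s τ i = 2) =
      ind (cfg s τ i = 2) := by
  have hK := KK_pos s
  have hKs : (KK s : ℤ) = 2 * s + NN + 1 := KK_cast s
  rw [← Finset.sum_mul]
  by_cases hi : cfg s τ i = 2
  · set c := code (τ (i 0 / (KK s : ℤ)) (i 1 / (KK s : ℤ))) with hc
    have hcl : c < NN := code_lt _
    have hi' := (cfg_eq_two hs).1 hi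
    rw [← hc] at hi'
    have h0 : (i 0 - s) % (KK s : ℤ) = 0 := by
      rw [Int.sub_emod, hi'.1, Int.emod_eq_of_lt (by omega : (0:ℤ) ≤ s) (by omega), sub_self,
        Int.zero_emod]
    rw [Finset.sum_eq_single c]
    · have h1 : (i 1 - (s + c)) % (KK s : ℤ) = 0 := by
        rw [Int.sub_emod, hi'.2, Int.emod_eq_of_lt (by omega : (0:ℤ) ≤ s + c) (by omega), sub_self,
          Int.zero_emod]
      have h2 : cfg s τ (i - off s (s + c)) = 1 := by
        rw [cfg_eq_one]
        exact ⟨h0, h1⟩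
      rw [ind, ind, if_pos hi, if_pos h2, one_mul]
    · intro j hj hne
      rw [Finset.mem_range] at hj
      rw [ind, if_neg]
      intro h
      rw [cfg_eq_one] at h
      have h1 : (i 1 - (s + j)) % (KK s : ℤ) = 0 := h.2
      obtain ⟨a1, -⟩ := emod_add_small (K := (KK s : ℤ)) (y := s + j) h1 (by omega) (by omega)
      rw [sub_add_cancel] at a1
      rw [hi'.2] at a1
      omega
    · intro h; exact absurd (Finset.mem_range.2 hcl) h
  · rw [ind, if_neg hi, mul_zero]

end Pool.Agent.H564R3.SBC
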