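import Pool.Agent.H564R3.SBC.Func

set_option autoImplicit false

/-! # Valid configurations code tilings and have no period -/

namespace Pool.Agent.H564R3.SBC

open Pool.Agent.Helper777.Prof
open scoped Classical

variable {s : ℕ} {τ : ℤ → ℤ → KT}

/-- the block of a tile -/
noncomputable def blk (s : ℕ) (t : KT) (u : Pos) : Fin 3 :=
  if u 0 = 0 ∧ u 1 = 0 then 1 else if u 0 = s ∧ u 1 = s + code t then 2 else 0

lemma cfg_block (p q : ℤ) {u : Pos} (hu : u ∈ box (KK s)) :
    cfg s τ (off (KK s * p) (KK s * q) + u) = blk s (τ p q) u := by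
  have hK := KK_pos s
  rw [mem_box] at hu
  obtain ⟨a1, a2⟩ := emod_add_small (K := (KK s : ℤ)) (x := KK s * p) (y := u 0)
    (Int.mul_emod_right _ _) hu.1.1 hu.1.2
  obtain ⟨b1, b2⟩ := emod_add_small (K := (KK s : ℤ)) (x := KK s * q) (y := u 1)
    (Int.mul_emod_right _ _) hu.2.1 hu.2.2
  rw [Int.mul_ediv_cancel_left _ hK.ne'] at a2 b2
  unfold cfg blk
  simp only [Pi.add_apply, off_zero, off_one, a1, a2, b1, b2]

lemma blk_inj {t t' : KT} (hs : 0 < s) (h : ∀ u ∈ box (KK s), blk s t u = blk s t' u) :
    t = t' := by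
  have hKs := KK_cast s
  have hc := code_lt t
  have h1 := h (off s (s + code t)) (by
    rw [mem_box]
    simp only [off_zero, off_one]
    omega)
  unfold blk at h1
  simp only [off_zero, off_one] at h1
  rw [if_neg (by omega), if_pos ⟨trivial, trivial⟩, if_neg (by omega)] at h1
  by_cases hcc : (s : ℤ) + code t = s + code t'
  · exact code_inj (by omega)
  · simp only [hcc, and_false, if_false] at h1
    exact absurd h1 (by decide)

lemma corner_step {X : Cf} (hX : ∀ a, Good s (S a X)) {c : Pos} (hc : X c = 1) :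
    ∃ τ, Tiling kH kV τ ∧ ∃ x y : ℤ, ∀ v : Pos,
      (-(KK s : ℤ) ≤ v 0 ∧ v 0 < 2 * KK s) → (-(KK s : ℤ) ≤ v 1 ∧ v 1 < 2 * KK s) →
      X (c + v) = cfg s τ (off (KK s * x) (KK s * y) + v) := by
  have hK := KK_pos s
  obtain ⟨τ, hτ, b, hb⟩ := hX (c - off (KK s) (KK s))
  have h1 : cfg s τ (off (KK s) (KK s) + b) = 1 := by
    rw [← hb]
    · simp only [S]
      rw [add_sub_cancel, hc]
    · rw [mem_box]
      simp only [off_zero, off_one]
      push_cast
      omega
  rw [cfg_eq_one] at h1
  simp only [Pi.add_apply, off_zero, off_one] at h1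
  obtain ⟨x, hx⟩ := Int.dvd_of_emod_eq_zero h1.1
  obtain ⟨y, hy⟩ := Int.dvd_of_emod_eq_zero h1.2
  refine ⟨τ, hτ, x, y, fun v h0 h1 => ?_⟩
  have h2 := hb (v + off (KK s) (KK s)) (by
    rw [mem_box]
    simp only [off_zero, off_one, Pi.add_apply]
    push_cast
    omega)
  have h3 : v + off (KK s) (KK s) + (c - off (KK s) (KK s)) = c + v := by abel
  simp only [S] at h2
  rw [h3] at h2
  rw [h2]
  congr 1
  apply pos_ext
  · simp only [off_zero, Pi.add_apply]
    rw [← hx]
    ring
  · simp only [off_one, Pi.add_apply]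
    rw [← hy]
    ring

lemma corner_near {X : Cf} (hX : ∀ a, Good s (S a X)) {c : Pos} (hc : X c = 1) (p q : ℤ)
    (hp : -1 ≤ p ∧ p ≤ 1) (hq : -1 ≤ q ∧ q ≤ 1) : X (c + off (KK s * p) (KK s * q)) = 1 := by
  have hK := KK_pos s
  obtain ⟨τ, -, x, y, h⟩ := corner_step hX hc
  rw [h, cfg_eq_one]
  · simp only [Pi.add_apply, off_zero, off_one]
    rw [← mul_add, ← mul_add]
    exact ⟨Int.mul_emod_right _ _, Int.mul_emod_right _ _⟩
  · rw [off_zero]
    constructor <;> nlinarith [hp.1, hp.2]
  · rw [off_one]
    constructor <;> nlinarith [hq.1, hq.2]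

lemma corner_all {X : Cf} (hX : ∀ a, Good s (S a X)) {c : Pos} (hc : X c = 1) (p q : ℤ) :
    X (c + off (KK s * p) (KK s * q)) = 1 := by
  have hrow : ∀ (p : ℤ) (c : Pos), X c = 1 → X (c + off (KK s * p) 0) = 1 := by
    intro p
    induction p using Int.induction_on with
    | zero =>
      intro c hc
      have : c + off (KK s * 0) 0 = c := by
        apply pos_ext <;> simp
      rw [this, hc]
    | succ n ih =>
      intro c hc
      have h1 := corner_near hX (ih c hc) 1 0 (by omega) (by omega)
      have : c + off (KK s * n) 0 + off (KK s * 1) (KK s * 0) = c + off (KK s * (n + 1)) 0 := by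
        apply pos_ext
        · simp only [Pi.add_apply, off_zero]; ring
        · simp only [Pi.add_apply, off_one]; ring
      rw [← this]
      exact h1
    | pred n ih =>
      intro c hc
      have h1 := corner_near hX (ih c hc) (-1) 0 (by omega) (by omega)
      have : c + off (KK s * -n) 0 + off (KK s * -1) (KK s * 0) = c + off (KK s * (-n - 1)) 0 := by
        apply pos_ext
        · simp only [Pi.add_apply, off_zero]; ring
        · simp only [Pi.add_apply, off_one]; ring
      rw [← this]
      exact h1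
  have hcol : ∀ (q : ℤ) (c : Pos), X c = 1 → X (c + off 0 (KK s * q)) = 1 := by
    intro q
    induction q using Int.induction_on with
    | zero =>
      intro c hc
      have : c + off 0 (KK s * 0) = c := by
        apply pos_ext <;> simp
      rw [this, hc]
    | succ n ih =>
      intro c hc
      have h1 := corner_near hX (ih c hc) 0 1 (by omega) (by omega)
      have : c + off 0 (KK s * n) + off (KK s * 0) (KK s * 1) = c + off 0 (KK s * (n + 1)) := by
        apply pos_ext
        · simp only [Pi.add_apply, off_zero]; ring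
        · simp only [Pi.add_apply, off_one]; ring
      rw [← this]
      exact h1
    | pred n ih =>
      intro c hc
      have h1 := corner_near hX (ih c hc) 0 (-1) (by omega) (by omega)
      have : c + off 0 (KK s * -n) + off (KK s * 0) (KK s * -1) = c + off 0 (KK s * (-n - 1)) := by
        apply pos_ext
        · simp only [Pi.add_apply, off_zero]; ring
        · simp only [Pi.add_apply, off_one]; ring
      rw [← this]
      exact h1
  have h := hcol q _ (hrow p c hc)
  have : c + off (KK s * p) 0 + off 0 (KK s * q) = c + off (KK s * p) (KK s * q) := by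
    apply pos_ext
    · simp only [Pi.add_apply, off_zero]; ring
    · simp only [Pi.add_apply, off_one]; ring
  rw [← this]
  exact h

/-- a valid configuration codes a tiling -/
theorem decode {X : Cf} (hs : 0 < s) (hX : ∀ a, Good s (S a X)) :
    ∃ (c : Pos) (τ : ℤ → ℤ → KT), Tiling kH kV τ ∧ ∀ i, X (c + i) = cfg s τ i := by
  have hK := KK_pos s
  -- a corner
  obtain ⟨c, hc⟩ : ∃ c, X c = 1 := by
    obtain ⟨τ, -, b, hb⟩ := hX 0
    by_contra hno
    push Not at hno
    have h1 := sum_corner (s := s) (τ := τ) b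
    rw [Finset.sum_eq_zero] at h1
    · norm_num at h1
    · intro v hv
      rw [← hb, ind, if_neg]
      · exact hno _
      · rw [mem_box] at hv ⊢
        push_cast
        omega
  refine ⟨c, ?_⟩
  have hcor := corner_all hX hc
  have hdec : ∀ p q : ℤ, ∃ τ, Tiling kH kV τ ∧ ∃ x y : ℤ,
      (∀ u ∈ box (KK s), X (c + (off (KK s * p) (KK s * q) + u)) = blk s (τ x y) u) ∧
      (∀ u ∈ box (KK s), X (c + (off (KK s * (p + 1)) (KK s * q) + u)) = blk s (τ (x + 1) y) u) ∧
      (∀ u ∈ box (KK s), X (c + (off (KK s * p) (KK s * (q + 1)) + u)) = blk s (τ x (y + 1)) u) := by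
    intro p q
    obtain ⟨τ, hτ, x, y, h⟩ := corner_step hX (hcor p q)
    refine ⟨τ, hτ, x, y, ?_, ?_, ?_⟩
    · intro u hu
      rw [← cfg_block x y hu, ← h, add_assoc]
      · rw [mem_box] at hu; omega
      · rw [mem_box] at hu; omega
    · intro u hu
      have e1 : off (KK s * (x + 1)) (KK s * y) + u =
          off (KK s * x) (KK s * y) + (off (KK s) 0 + u) := by
        apply pos_ext
        · simp only [Pi.add_apply, off_zero]; ring
        · simp only [Pi.add_apply, off_one]; ring
      rw [← cfg_block (x + 1) y hu, e1, ← h]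
      · congr 1
        apply pos_ext
        · simp only [Pi.add_apply, off_zero]; ring
        · simp only [Pi.add_apply, off_one]; ring
      · rw [mem_box] at hu
        simp only [Pi.add_apply, off_zero]
        omega
      · rw [mem_box] at hu
        simp only [Pi.add_apply, off_one]
        omega
    · intro u hu
      have e1 : off (KK s * x) (KK s * (y + 1)) + u =
          off (KK s * x) (KK s * y) + (off 0 (KK s) + u) := by
        apply pos_ext
        · simp only [Pi.add_apply, off_zero]; ring
        · simp only [Pi.add_apply, off_one]; ring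
      rw [← cfg_block x (y + 1) hu, e1, ← h]
      · congr 1
        apply pos_ext
        · simp only [Pi.add_apply, off_zero]; ring
        · simp only [Pi.add_apply, off_one]; ring
      · rw [mem_box] at hu
        simp only [Pi.add_apply, off_zero]
        omega
      · rw [mem_box] at hu
        simp only [Pi.add_apply, off_one]
        omega
  have hex : ∀ p q : ℤ, ∃ t : KT, ∀ u ∈ box (KK s),
      X (c + (off (KK s * p) (KK s * q) + u)) = blk s t u := by
    intro p q
    obtain ⟨τ, -, x, y, h, -⟩ := hdec p q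
    exact ⟨_, h⟩
  choose τ' hτ' using hex
  refine ⟨τ', ?_, ?_⟩
  · intro p q
    obtain ⟨τ, hτ, x, y, h1, h2, h3⟩ := hdec p q
    have e1 : τ' p q = τ x y := blk_inj hs fun u hu => by rw [← hτ' p q u hu, h1 u hu]
    have e2 : τ' (p + 1) q = τ (x + 1) y := blk_inj hs fun u hu => by
      rw [← hτ' (p + 1) q u hu, h2 u hu]
    have e3 : τ' p (q + 1) = τ x (y + 1) := blk_inj hs fun u hu => by
      rw [← hτ' p (q + 1) u hu, h3 u hu]
    rw [e1, e2, e3]
    exact hτ x y
  · intro i
    have hu : off (i 0 % KK s) (i 1 % KK s) ∈ box (KK s) := by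
      rw [mem_box]
      exact ⟨⟨Int.emod_nonneg _ hK.ne', Int.emod_lt_of_pos _ hK⟩,
        ⟨Int.emod_nonneg _ hK.ne', Int.emod_lt_of_pos _ hK⟩⟩
    have hi : i = off (KK s * (i 0 / KK s)) (KK s * (i 1 / KK s)) +
        off (i 0 % KK s) (i 1 % KK s) := by
      apply pos_ext
      · simp only [Pi.add_apply, off_zero]
        exact (Int.mul_ediv_add_emod _ _).symm
      · simp only [Pi.add_apply, off_one]
        exact (Int.mul_ediv_add_emod _ _).symm
    rw [hi, hτ' _ _ _ hu, cfg_block _ _ hu]

/-- no valid configuration has a nonzero period -/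
theorem no_per {X : Cf} (hs : 0 < s) (hX : ∀ a, Good s (S a X)) (a : Pos)
    (h : ∀ i, X (i - a) = X i) : a = 0 := by
  obtain ⟨c, τ, hτ, hc⟩ := decode hs hX
  have hper : ∀ i, cfg s τ (i - a) = cfg s τ i := by
    intro i
    rw [← hc, ← hc, ← h (c + i), add_sub_assoc]
  have h0 : cfg s τ 0 = 1 := by
    rw [cfg_eq_one]
    exact ⟨Int.zero_emod _, Int.zero_emod _⟩
  have ha : cfg s τ a = 1 := by
    rw [← hper a, sub_self, h0]
  rw [cfg_eq_one] at ha
  obtain ⟨p, hp⟩ := Int.dvd_of_emod_eq_zero ha.1
  obtain ⟨q, hq⟩ := Int.dvd_of_emod_eq_zero ha.2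
  have hτp : ∀ x y, τ (x + p) (y + q) = τ x y := by
    intro x y
    apply blk_inj hs
    intro u hu
    rw [← cfg_block _ _ hu, ← cfg_block _ _ hu, ← hper (off (KK s * (x + p)) (KK s * (y + q)) + u)]
    congr 1
    apply pos_ext
    · simp only [Pi.add_apply, Pi.sub_apply, off_zero, hp]; ring
    · simp only [Pi.add_apply, Pi.sub_apply, off_one, hq]; ring
  obtain ⟨p0, q0⟩ := DR.no_period hτ p q hτp
  apply pos_ext
  · rw [hp, p0, mul_zero]; rfl
  · rw [hq, q0, mul_zero]; rfl

end Pool.Agent.H564R3.SBC
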