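import Pool.Agent.H564R3.SBC.Pattern
import Pool.Agent.H564R3.SBC.Period

set_option autoImplicit false

/-! # The finite list of forbidden patterns -/

namespace Pool.Agent.H564R3.SBC

open Pool.Agent.Helper777.Prof
open scoped Classical
open MeasureTheory

/-- window patterns that occur in no coded tiling -/
abbrev BadP (s : ℕ) : Type :=
  {p : (box (3 * KK s)) → Fin 3 // ¬ ∃ τ : ℤ → ℤ → KT, Tiling kH kV τ ∧
    ∃ b : Pos, ∀ v : box (3 * KK s), p v = cfg s τ (v + b)}

/-- the number of forbidden patterns -/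
noncomputable def mm (s : ℕ) : ℕ := Fintype.card (BadP s)

/-- the forbidden patterns -/
noncomputable def FF (s : ℕ) : Fin (mm s) → Finset Pos × Cf := fun j =>
  (box (3 * KK s), fun v => if h : v ∈ box (3 * KK s) then
    ((Fintype.equivFin (BadP s)).symm j).1 ⟨v, h⟩ else 0)

variable {s : ℕ}

/-- a bad window contains a forbidden pattern -/
lemma exists_forb {Y : Cf} {a : Pos} (h : ¬ Good s (S a Y)) :
    ∃ j : Fin (mm s), ∀ i ∈ (FF s j).1, Y (i + a) = (FF s j).2 i := by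
  have hp : ¬ ∃ τ : ℤ → ℤ → KT, Tiling kH kV τ ∧
      ∃ b : Pos, ∀ v : box (3 * KK s), (fun v : box (3 * KK s) => Y (v + a)) v = cfg s τ (v + b) := by
    rintro ⟨τ, hτ, b, hb⟩
    exact h ⟨τ, hτ, b, fun v hv => hb ⟨v, hv⟩⟩
  refine ⟨Fintype.equivFin (BadP s) ⟨_, hp⟩, fun i hi => ?_⟩
  unfold FF at hi ⊢
  simp only [Equiv.symm_apply_apply]
  rw [dif_pos hi]

/-- a good window contains no forbidden pattern -/
lemma not_forb {Y : Cf} {a : Pos} (h : Good s (S a Y)) (j : Fin (mm s)) :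
    ¬ ∀ i ∈ (FF s j).1, Y (i + a) = (FF s j).2 i := by
  intro hj
  obtain ⟨τ, hτ, b, hb⟩ := h
  apply ((Fintype.equivFin (BadP s)).symm j).2
  refine ⟨τ, hτ, b, fun v => ?_⟩
  have h1 := hj v v.2
  have h2 := hb v v.2
  unfold FF at h1
  simp only [Subtype.coe_eta, Finset.coe_mem, dite_true] at h1
  rw [← h1, ← h2]
  rfl

lemma valid_iff {X : Cf} : (∀ j : Fin (mm s), ∀ a : Pos, ¬ ∀ i ∈ (FF s j).1,
    X (i + a) = (FF s j).2 i) ↔ ∀ a, Good s (S a X) := by
  constructor
  · intro h a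
    by_contra hc
    obtain ⟨j, hj⟩ := exists_forb hc
    exact h j a hj
  · intro h j a
    exact not_forb (h a) j

/-- the difference of the two counts as a sum of indicators -/
lemma count_eq {X Y : Cf} (hfin : {i | Y i ≠ X i}.Finite) (DA : Finset Pos) (p : Cf) :
    ((((Set.ncard {a : Pos | (∀ i ∈ DA, Y (i + a) = p i) ∧ ¬ ∀ i ∈ DA, X (i + a) = p i} : ℕ) : ℤ) -
      ((Set.ncard {a : Pos | (∀ i ∈ DA, X (i + a) = p i) ∧
        ¬ ∀ i ∈ DA, Y (i + a) = p i} : ℕ) : ℤ) : ℤ) : ℝ) =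
    ∑ᶠ a, (ind (∀ i ∈ DA, S a Y i = p i) - ind (∀ i ∈ DA, S a X i = p i)) := by
  have hsup := support_finite hfin (local_pat DA p)
  set A := {a : Pos | (∀ i ∈ DA, Y (i + a) = p i) ∧ ¬ ∀ i ∈ DA, X (i + a) = p i} with hA
  set B := {a : Pos | (∀ i ∈ DA, X (i + a) = p i) ∧ ¬ ∀ i ∈ DA, Y (i + a) = p i} with hB
  have hAf : A.Finite := hsup.subset fun a ha => by
    have h1 : (∀ i ∈ DA, S a Y i = p i) := ha.1
    have h2 : ¬ (∀ i ∈ DA, S a X i = p i) := ha.2
    rw [Function.mem_support, ind, ind, if_pos h1, if_neg h2]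
    norm_num
  have hBf : B.Finite := hsup.subset fun a ha => by
    have h1 : (∀ i ∈ DA, S a X i = p i) := ha.1
    have h2 : ¬ (∀ i ∈ DA, S a Y i = p i) := ha.2
    rw [Function.mem_support, ind, ind, if_pos h1, if_neg h2]
    norm_num
  have hfun : ∀ a, ind (∀ i ∈ DA, S a Y i = p i) - ind (∀ i ∈ DA, S a X i = p i) =
      (if a ∈ A then (1 : ℝ) else 0) - (if a ∈ B then (1 : ℝ) else 0) := by
    intro a
    by_cases h1 : (∀ i ∈ DA, S a Y i = p i) <;> by_cases h2 : (∀ i ∈ DA, S a X i = p i)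
    · have hnA : a ∉ A := fun h => h.2 h2
      have hnB : a ∉ B := fun h => h.2 h1
      rw [ind, ind, if_pos h1, if_pos h2, if_neg hnA, if_neg hnB]; norm_num
    · have hnA : a ∈ A := ⟨h1, h2⟩
      have hnB : a ∉ B := fun h => h2 h.1
      rw [ind, ind, if_pos h1, if_neg h2, if_pos hnA, if_neg hnB]
    · have hnA : a ∉ A := fun h => h1 h.1
      have hnB : a ∈ B := ⟨h2, h1⟩
      rw [ind, ind, if_neg h1, if_pos h2, if_neg hnA, if_pos hnB]
    · have hnA : a ∉ A := fun h => h1 h.1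
      have hnB : a ∉ B := fun h => h2 h.1
      rw [ind, ind, if_neg h1, if_neg h2, if_neg hnA, if_neg hnB]
  rw [finsum_congr hfun]
  have hone : ∀ {T : Set Pos} (hT : T.Finite), ∑ᶠ a, (if a ∈ T then (1 : ℝ) else 0) = T.ncard := by
    intro T hT
    rw [finsum_eq_sum_of_support_subset _ (s := hT.toFinset) ?_]
    · rw [Set.ncard_eq_toFinset_card T hT, Finset.card_eq_sum_ones, Nat.cast_sum]
      apply Finset.sum_congr rfl
      intro a ha
      rw [if_pos (hT.mem_toFinset.1 ha), Nat.cast_one]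
    · intro a ha
      by_contra hc
      rw [Set.Finite.coe_toFinset] at hc
      exact ha (if_neg hc)
  have hs1 : (Function.support fun a => if a ∈ A then (1 : ℝ) else 0).Finite :=
    hAf.subset fun a ha => by
      by_contra hc
      exact ha (if_neg hc)
  have hs2 : (Function.support fun a => if a ∈ B then (1 : ℝ) else 0).Finite :=
    hBf.subset fun a ha => by
      by_contra hc
      exact ha (if_neg hc)
  have e1 : (∑ᶠ a, if a ∈ A then (1 : ℝ) else 0) = A.ncard := by convert hone hAf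
  have e2 : (∑ᶠ a, if a ∈ B then (1 : ℝ) else 0) = B.ncard := by convert hone hBf
  rw [finsum_sub_distrib hs1 hs2, e1, e2]
  push_cast
  rfl

/-- bad windows are counted by broken bonds -/
lemma bad_le {X Y : Cf} (hfin : {i | Y i ≠ X i}.Finite) (hX : ∀ a, Good s (S a X)) :
    ∃ B : Finset Pos, (∀ a, a ∉ B → Good s (S a Y)) ∧
      B.card ≤ Set.ncard {q : Fin (mm s) × Pos | ∀ i ∈ (FF s q.1).1, Y (i + q.2) = (FF s q.1).2 i} := by
  -- the set of bad positions is finite
  have hE : {a : Pos | ∃ v ∈ box (3 * KK s), Y (v + a) ≠ X (v + a)}.Finite := by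
    apply Set.Finite.subset (Set.Finite.biUnion (box (3 * KK s)).finite_toSet
      (fun v _ => hfin.preimage ((add_right_injective v).injOn)))
    rintro a ⟨v, hv, h⟩
    simp only [Set.mem_iUnion]
    exact ⟨v, hv, h⟩
  have hbadE : ∀ a, ¬ Good s (S a Y) → a ∈ {a : Pos | ∃ v ∈ box (3 * KK s), Y (v + a) ≠ X (v + a)} := by
    intro a ha
    by_contra hc
    apply ha
    simp only [Set.mem_setOf_eq, not_exists, not_and, not_not] at hc
    obtain ⟨τ, hτ, b, hb⟩ := hX a
    exact ⟨τ, hτ, b, fun v hv => (hc v hv).trans (hb v hv)⟩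
  have hQf : {q : Fin (mm s) × Pos | ∀ i ∈ (FF s q.1).1, Y (i + q.2) = (FF s q.1).2 i}.Finite := by
    apply Set.Finite.subset (Set.Finite.prod (Set.finite_univ (α := Fin (mm s))) hE)
    rintro ⟨j, a⟩ hq
    refine ⟨Set.mem_univ _, hbadE a fun hg => ?_⟩
    exact not_forb hg j hq
  have hBf : {a : Pos | ¬ Good s (S a Y)}.Finite := hE.subset hbadE
  refine ⟨hBf.toFinset, fun a ha => ?_, ?_⟩
  · by_contra hc
    exact ha (hBf.mem_toFinset.2 hc)
  · rw [← Set.ncard_eq_toFinset_card _ hBf]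
    have hsub : {a : Pos | ¬ Good s (S a Y)} ⊆ Prod.snd ''
        {q : Fin (mm s) × Pos | ∀ i ∈ (FF s q.1).1, Y (i + q.2) = (FF s q.1).2 i} := by
      intro a ha
      obtain ⟨j, hj⟩ := exists_forb ha
      exact ⟨(j, a), hj, rfl⟩
    exact (Set.ncard_le_ncard hsub (hQf.image _)).trans (Set.ncard_image_le hQf)

end Pool.Agent.H564R3.SBC
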