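import Pool.Agent.H564R3.SBC.Cfg

set_option autoImplicit false

/-! # Translation-invariant functionals on local observables -/

namespace Pool.Agent.H564R3.SBC

open Pool.Agent.Helper777.Prof
open scoped Classical

/-- configurations -/
abbrev Cf : Type := Pos → Fin 3

/-- translations -/
def S (w : Pos) (Z : Cf) : Cf := fun i => Z (i + w)

/-- a good window at the origin -/
def Good (s : ℕ) (Z : Cf) : Prop :=
  ∃ τ : ℤ → ℤ → KT, Tiling kH kV τ ∧ ∃ b : Pos, ∀ v ∈ box (3 * KK s), Z v = cfg s τ (v + b)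

/-- local observables -/
def Local (φ : Cf → ℝ) : Prop :=
  ∃ W : Finset Pos, ∀ Z Z' : Cf, (∀ v ∈ W, Z v = Z' v) → φ Z = φ Z'

lemma local_const (c : ℝ) : Local fun _ => c := ⟨∅, fun _ _ _ => rfl⟩

lemma Local.add {φ ψ : Cf → ℝ} (h1 : Local φ) (h2 : Local ψ) : Local fun Z => φ Z + ψ Z := by
  obtain ⟨W1, h1⟩ := h1
  obtain ⟨W2, h2⟩ := h2
  refine ⟨W1 ∪ W2, fun Z Z' h => ?_⟩
  beta_reduce
  rw [h1 Z Z' fun v hv => h v (Finset.mem_union_left _ hv),
    h2 Z Z' fun v hv => h v (Finset.mem_union_right _ hv)]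

lemma Local.mul {φ ψ : Cf → ℝ} (h1 : Local φ) (h2 : Local ψ) : Local fun Z => φ Z * ψ Z := by
  obtain ⟨W1, h1⟩ := h1
  obtain ⟨W2, h2⟩ := h2
  refine ⟨W1 ∪ W2, fun Z Z' h => ?_⟩
  beta_reduce
  rw [h1 Z Z' fun v hv => h v (Finset.mem_union_left _ hv),
    h2 Z Z' fun v hv => h v (Finset.mem_union_right _ hv)]

lemma Local.sum {ι : Type} (t : Finset ι) {φ : ι → Cf → ℝ} (h : ∀ j ∈ t, Local (φ j)) :
    Local fun Z => ∑ j ∈ t, φ j Z := by
  induction t using Finset.induction_on with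
  | empty => simpa using local_const 0
  | insert a t ha ih =>
    simp only [Finset.sum_insert ha]
    exact (h a (Finset.mem_insert_self _ _)).add (ih fun j hj => h j (Finset.mem_insert_of_mem hj))

lemma Local.shift {φ : Cf → ℝ} (h : Local φ) (w : Pos) : Local fun Z => φ (S w Z) := by
  obtain ⟨W, h⟩ := h
  refine ⟨W.image (· + w), fun Z Z' hZ => ?_⟩
  apply h
  intro v hv
  exact hZ _ (Finset.mem_image_of_mem _ hv)

lemma local_ind (v : Pos) (x : Fin 3) : Local fun Z => ind (Z v = x) :=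
  ⟨{v}, fun Z Z' h => by beta_reduce; rw [h v (Finset.mem_singleton_self v)]⟩

/-- an abstract translation-invariant linear functional that is small on observables that vanish on
good windows -/
structure Func (s : ℕ) (Λ : (Cf → ℝ) → ℝ) (lam β : ℝ) : Prop where
  add : ∀ φ ψ : Cf → ℝ, Local φ → Local ψ → Λ (fun Z => φ Z + ψ Z) = Λ φ + Λ ψ
  smul : ∀ (c : ℝ) (φ : Cf → ℝ), Local φ → Λ (fun Z => c * φ Z) = c * Λ φ
  const : ∀ c : ℝ, Λ (fun _ => c) = c * lam
  shift : ∀ (w : Pos) (φ : Cf → ℝ), Local φ → Λ (fun Z => φ (S w Z)) = Λ φ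
  bound : ∀ (φ : Cf → ℝ) (M : ℝ), Local φ → (∀ Z, Good s Z → φ Z = 0) → (∀ Z, |φ Z| ≤ M) →
    |Λ φ| ≤ M * β
  nonneg : 0 ≤ β

variable {s : ℕ} {Λ : (Cf → ℝ) → ℝ} {lam β : ℝ}

lemma Func.sum (hΛ : Func s Λ lam β) {ι : Type} (t : Finset ι) {φ : ι → Cf → ℝ}
    (h : ∀ j ∈ t, Local (φ j)) : Λ (fun Z => ∑ j ∈ t, φ j Z) = ∑ j ∈ t, Λ (φ j) := by
  induction t using Finset.induction_on with
  | empty =>
    simp only [Finset.sum_empty]
    rw [hΛ.const, zero_mul]
  | insert a t ha ih =>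
    simp only [Finset.sum_insert ha]
    rw [hΛ.add _ _ (h a (Finset.mem_insert_self _ _))
      (Local.sum t fun j hj => h j (Finset.mem_insert_of_mem hj)),
      ih fun j hj => h j (Finset.mem_insert_of_mem hj)]

/-- value at an observable and at its translate -/
lemma Func.ind_shift (hΛ : Func s Λ lam β) (v : Pos) (x : Fin 3) :
    Λ (fun Z => ind (Z v = x)) = Λ (fun Z => ind (Z 0 = x)) := by
  have := hΛ.shift v (fun Z => ind (Z 0 = x)) (local_ind 0 x)
  simp only [S, zero_add] at this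
  exact this

lemma ind_nonneg (p : Prop) [Decidable p] : 0 ≤ ind p := by unfold ind; split_ifs <;> norm_num

/-- the corner density -/
lemma Func.corner (hΛ : Func s Λ lam β) :
    |(KK s : ℝ) ^ 2 * Λ (fun Z => ind (Z 0 = 1)) - lam| ≤ ((KK s : ℝ) ^ 2 + 1) * β := by
  have hcard : ((box (KK s)).card : ℝ) = (KK s : ℝ) ^ 2 := by
    unfold box
    rw [Fintype.card_piFinset]
    simp
  have hl1 : Local fun Z => ∑ v ∈ box (KK s), ind (Z v = 1) :=
    Local.sum _ fun v _ => local_ind v 1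
  have h1 := hΛ.bound (fun Z => (∑ v ∈ box (KK s), ind (Z v = 1)) + (-1)) ((KK s : ℝ) ^ 2 + 1)
    (hl1.add (local_const _)) ?_ ?_
  · rw [hΛ.add _ _ hl1 (local_const _), hΛ.const, hΛ.sum _ fun v _ => local_ind v 1,
      Finset.sum_congr rfl fun v _ => hΛ.ind_shift v 1, Finset.sum_const, nsmul_eq_mul, hcard] at h1
    rw [sub_eq_add_neg, ← neg_one_mul]
    exact h1
  · rintro Z ⟨τ, -, b, hb⟩
    have : ∑ v ∈ box (KK s), ind (Z v = 1) = ∑ v ∈ box (KK s), ind (cfg s τ (v + b) = 1) := by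
      apply Finset.sum_congr rfl
      intro v hv
      rw [hb v]
      rw [mem_box] at hv ⊢
      have := KK_pos s
      push_cast
      omega
    rw [this, sum_corner]
    norm_num
  · intro Z
    have h2 : ∑ v ∈ box (KK s), ind (Z v = 1) ≤ (KK s : ℝ) ^ 2 := by
      rw [← hcard, ← nsmul_one, ← Finset.sum_const]
      apply Finset.sum_le_sum
      intro v _
      exact (abs_le.1 (ind_le _)).2
    have h3 : 0 ≤ ∑ v ∈ box (KK s), ind (Z v = 1) := Finset.sum_nonneg fun v _ => ind_nonneg _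
    rw [abs_le]
    constructor <;> linarith

/-- markers are as frequent as corners -/
lemma Func.marker (hΛ : Func s Λ lam β) (hs : 0 < s) :
    |Λ (fun Z => ind (Z 0 = 2)) - Λ (fun Z => ind (Z 0 = 1))| ≤ 2 * ((NN : ℝ) + 1) * β := by
  have hKs := KK_cast s
  set P : ℕ → ℝ := fun j => Λ (fun Z => ind (Z 0 = 1) * ind (Z (off s (s + j)) = 2)) with hP
  have hlP : ∀ j : ℕ, Local fun Z => ind (Z 0 = 1) * ind (Z (off s (s + j)) = 2) := fun j =>
    (local_ind _ _).mul (local_ind _ _)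
  set w : Pos := off (KK s) (KK s) with hw
  have hlQ : ∀ j : ℕ, Local fun Z => ind (Z (w - off s (s + j)) = 1) * ind (Z w = 2) := fun j =>
    (local_ind _ _).mul (local_ind _ _)
  have hQ : ∀ j : ℕ, Λ (fun Z => ind (Z (w - off s (s + j)) = 1) * ind (Z w = 2)) = P j := by
    intro j
    have := hΛ.shift (w - off s (s + j)) _ (hlP j)
    simp only [S, zero_add, add_sub_cancel] at this
    exact this
  have hbnd : ∀ (f : ℕ → ℝ) (x : ℝ), (∀ j, 0 ≤ f j ∧ f j ≤ 1) → 0 ≤ x → x ≤ 1 →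
      |(∑ j ∈ Finset.range NN, f j) + (-1) * x| ≤ (NN : ℝ) + 1 := by
    intro f x hf h0 h1
    have h2 : ∑ j ∈ Finset.range NN, f j ≤ (NN : ℝ) := by
      calc ∑ j ∈ Finset.range NN, f j ≤ ∑ j ∈ Finset.range NN, (1 : ℝ) :=
            Finset.sum_le_sum fun j _ => (hf j).2
        _ = NN := by simp
    have h3 : 0 ≤ ∑ j ∈ Finset.range NN, f j := Finset.sum_nonneg fun j _ => (hf j).1
    rw [abs_le]
    constructor <;> linarith
  have hi01 : ∀ (p : Prop) [Decidable p], 0 ≤ ind p ∧ ind p ≤ 1 := by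
    intro p _
    exact ⟨ind_nonneg p, (abs_le.1 (ind_le p)).2⟩
  have h2 := hΛ.bound (fun Z => (∑ j ∈ Finset.range NN, ind (Z 0 = 1) * ind (Z (off s (s + j)) = 2)) +
      (-1) * ind (Z 0 = 1)) ((NN : ℝ) + 1)
    ((Local.sum _ fun j _ => hlP j).add ((local_const _).mul (local_ind _ _))) ?_ ?_
  · have h3 := hΛ.bound (fun Z => (∑ j ∈ Finset.range NN,
          ind (Z (w - off s (s + j)) = 1) * ind (Z w = 2)) + (-1) * ind (Z w = 2)) ((NN : ℝ) + 1)
      ((Local.sum _ fun j _ => hlQ j).add ((local_const _).mul (local_ind _ _))) ?_ ?_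
    · rw [hΛ.add _ _ (Local.sum _ fun j _ => hlP j) ((local_const _).mul (local_ind _ _)),
        hΛ.sum _ (fun j _ => hlP j), hΛ.smul _ _ (local_ind _ _)] at h2
      rw [hΛ.add _ _ (Local.sum _ fun j _ => hlQ j) ((local_const _).mul (local_ind _ _)),
        hΛ.sum _ (fun j _ => hlQ j), hΛ.smul _ _ (local_ind _ _), hΛ.ind_shift w 2,
        Finset.sum_congr rfl fun j _ => hQ j] at h3
      change |(∑ j ∈ Finset.range NN, P j) + _| ≤ _ at h2
      rw [abs_le] at h2 h3 ⊢
      constructor <;> nlinarith [h2.1, h2.2, h3.1, h3.2]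
    · rintro Z ⟨τ, -, b, hb⟩
      have e1 : Z w = cfg s τ (w + b) := by
        apply hb
        rw [mem_box, hw]
        simp only [off_zero, off_one]
        push_cast
        omega
      have e2 : ∀ j ∈ Finset.range NN, Z (w - off s (s + j)) = cfg s τ (w + b - off s (s + j)) := by
        intro j hj
        rw [Finset.mem_range] at hj
        rw [hb]
        · congr 1
          abel
        · rw [mem_box, hw]
          simp only [off_zero, off_one, Pi.sub_apply]
          push_cast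
          omega
      rw [e1, Finset.sum_congr rfl fun j hj => by rw [e2 j hj], sum_corner_of_marker' hs]
      ring
    · intro Z
      apply hbnd
      · intro j
        refine ⟨mul_nonneg (hi01 _).1 (hi01 _).1, mul_le_one₀ (hi01 _).2 (hi01 _).1 (hi01 _).2⟩
      · exact (hi01 _).1
      · exact (hi01 _).2
  · rintro Z ⟨τ, -, b, hb⟩
    have e1 : Z 0 = cfg s τ b := by
      rw [hb, zero_add]
      rw [mem_box]
      have h0 : (0 : Pos) 0 = 0 := rfl
      have h1 : (0 : Pos) 1 = 0 := rfl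
      rw [h0, h1]
      have := KK_pos s
      constructor <;> constructor <;> omega
    have e2 : ∀ j ∈ Finset.range NN, Z (off s (s + j)) = cfg s τ (b + off s (s + j)) := by
      intro j hj
      rw [Finset.mem_range] at hj
      rw [hb, add_comm]
      rw [mem_box]
      simp only [off_zero, off_one]
      push_cast
      omega
    rw [e1, Finset.sum_congr rfl fun j hj => by rw [e2 j hj], sum_marker_of_corner hs]
    ring
  · intro Z
    apply hbnd
    · intro j
      refine ⟨mul_nonneg (hi01 _).1 (hi01 _).1, mul_le_one₀ (hi01 _).2 (hi01 _).1 (hi01 _).2⟩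
    · exact (hi01 _).1
    · exact (hi01 _).2

end Pool.Agent.H564R3.SBC
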