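import Pool.Agent.H564R3.SBC.Func

set_option autoImplicit false

/-! # Small patterns, excitations and measures -/

namespace Pool.Agent.H564R3.SBC

open Pool.Agent.Helper777.Prof
open scoped Classical
open MeasureTheory

lemma lin (DA : Finset Pos) (p : Cf) : ∃ (c0 : ℝ) (c1 c2 : Pos → ℝ), ∀ z : Cf,
    (∀ i ∈ DA, ∀ j ∈ DA, z i ≠ 0 → z j ≠ 0 → i = j) →
    ind (∀ i ∈ DA, z i = p i) =
      c0 + ∑ i ∈ DA, (c1 i * ind (z i = 1) + c2 i * ind (z i = 2)) := by
  set f : Cf → ℝ := fun z => ind (∀ i ∈ DA, z i = p i) with hf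
  have hcongr : ∀ z z' : Cf, (∀ i ∈ DA, z i = z' i) → f z = f z' := by
    intro z z' h
    have : (∀ i ∈ DA, z i = p i) ↔ (∀ i ∈ DA, z' i = p i) :=
      ⟨fun h' i hi => (h i hi).symm.trans (h' i hi), fun h' i hi => (h i hi).trans (h' i hi)⟩
    simp only [hf, this]
  refine ⟨f 0, fun i => f (Pi.single i 1) - f 0, fun i => f (Pi.single i 2) - f 0, fun z hz => ?_⟩
  by_cases h : ∃ i ∈ DA, z i ≠ 0
  · obtain ⟨i, hi, hzi⟩ := h
    have hothers : ∀ j ∈ DA, j ≠ i → z j = 0 := by
      intro j hj hne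
      by_contra hc
      exact hne (hz j hj i hi hc hzi)
    rw [Finset.sum_eq_single i]
    · have hzz : f z = f (Pi.single i (z i)) := hcongr _ _ (by
        intro j hj
        by_cases hji : j = i
        · subst hji; rw [Pi.single_eq_same]
        · rw [Pi.single_eq_of_ne hji, hothers j hj hji])
      have h12 : z i = 1 ∨ z i = 2 := (by decide : ∀ x : Fin 3, x ≠ 0 → x = 1 ∨ x = 2) _ hzi
      change f z = _
      rw [hzz]
      rcases h12 with h | h
      · rw [h, ind, if_pos rfl, ind, if_neg (by decide)]; ring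
      · rw [h, ind, if_neg (by decide), ind, if_pos rfl]; ring
    · intro j hj hne
      rw [hothers j hj hne, ind, if_neg (by decide), ind, if_neg (by decide)]; ring
    · intro h; exact absurd hi h
  · push Not at h
    rw [Finset.sum_eq_zero]
    · have : f z = f 0 := hcongr _ _ fun i hi => h i hi
      change f z = _
      rw [this, add_zero]
    · intro i hi
      rw [h i hi, ind, if_neg (by decide), ind, if_neg (by decide)]; ring

lemma local_pat (DA : Finset Pos) (p : Cf) : Local fun Z => ind (∀ i ∈ DA, Z i = p i) := by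
  refine ⟨DA, fun z z' h => ?_⟩
  have : (∀ i ∈ DA, z i = p i) ↔ (∀ i ∈ DA, z' i = p i) :=
    ⟨fun h' i hi => (h i hi).symm.trans (h' i hi), fun h' i hi => (h i hi).trans (h' i hi)⟩
  simp only [this]

variable {s : ℕ}

theorem pattern (hs : 0 < s) (DA : Finset Pos) (hne : DA.Nonempty)
    (hd : ∀ i ∈ DA, ∀ j ∈ DA, ∀ c, |i c - j c| < s) (p : Cf) :
    ∃ δ C : ℝ, 0 ≤ C ∧ ∀ (Λ : (Cf → ℝ) → ℝ) (lam β : ℝ), Func s Λ lam β →
      |Λ (fun Z => ind (∀ i ∈ DA, Z i = p i)) - δ * lam| ≤ C * β := by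
  obtain ⟨i0, hi0⟩ := hne
  obtain ⟨c0, c1, c2, hlin⟩ := lin DA p
  have hKs := KK_cast s
  have hKpos : (0 : ℝ) < (KK s : ℝ) ^ 2 := by
    have := KK_pos s
    have h2 : (0 : ℝ) < (KK s : ℝ) := by exact_mod_cast this
    positivity
  have hK1 : (1 : ℝ) ≤ (KK s : ℝ) ^ 2 := by
    have := KK_pos s
    have h2 : (1 : ℝ) ≤ (KK s : ℝ) := by exact_mod_cast this
    nlinarith
  set w : Pos := i0 - off s s with hw
  set A : ℝ := ∑ i ∈ DA, (|c1 i| + |c2 i|) with hA
  have hA0 : 0 ≤ A := Finset.sum_nonneg fun i _ => by positivity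
  set M : ℝ := 1 + |c0| + A with hM
  set Bd : ℝ := 2 + 2 * ((NN : ℝ) + 1) with hBd
  refine ⟨c0 + ∑ i ∈ DA, (c1 i + c2 i) / (KK s : ℝ) ^ 2, M + A * Bd, by positivity, ?_⟩
  intro Λ lam β hΛ
  set φ : Cf → ℝ := fun Z => ind (∀ i ∈ DA, Z i = p i) +
    (-1) * (c0 + ∑ i ∈ DA, (c1 i * ind (Z i = 1) + c2 i * ind (Z i = 2))) with hφ
  have hl0 : ∀ i, Local fun Z => c1 i * ind (Z i = 1) + c2 i * ind (Z i = 2) := fun i =>
    ((local_const _).mul (local_ind _ _)).add ((local_const _).mul (local_ind _ _))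
  have hl1 : Local fun Z => ∑ i ∈ DA, (c1 i * ind (Z i = 1) + c2 i * ind (Z i = 2)) :=
    Local.sum _ fun i _ => hl0 i
  have hl2 : Local fun Z => c0 + ∑ i ∈ DA, (c1 i * ind (Z i = 1) + c2 i * ind (Z i = 2)) :=
    (local_const _).add hl1
  have hl3 : Local φ := (local_pat DA p).add ((local_const _).mul hl2)
  have hb := hΛ.bound (fun Z => φ (S (-w) Z)) M (hl3.shift _) ?_ ?_
  · rw [hΛ.shift _ _ hl3, hφ, hΛ.add _ _ (local_pat DA p) ((local_const _).mul hl2),
      hΛ.smul _ _ hl2, hΛ.add _ _ (local_const _) hl1, hΛ.const, hΛ.sum _ fun i _ => hl0 i] at hb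
    have h1 : ∀ i ∈ DA, Λ (fun Z => c1 i * ind (Z i = 1) + c2 i * ind (Z i = 2)) =
        c1 i * Λ (fun Z => ind (Z 0 = 1)) + c2 i * Λ (fun Z => ind (Z 0 = 2)) := by
      intro i _
      rw [hΛ.add _ _ ((local_const _).mul (local_ind _ _)) ((local_const _).mul (local_ind _ _)),
        hΛ.smul _ _ (local_ind _ _), hΛ.smul _ _ (local_ind _ _), hΛ.ind_shift i 1,
        hΛ.ind_shift i 2]
    rw [Finset.sum_congr rfl h1] at hb
    set e1 := Λ (fun Z => ind (Z 0 = 1)) with he1
    set e2 := Λ (fun Z => ind (Z 0 = 2)) with he2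
    set L := Λ (fun Z => ind (∀ i ∈ DA, Z i = p i)) with hL
    have hβ := hΛ.nonneg
    have g1 : |e1 - lam / (KK s : ℝ) ^ 2| ≤ Bd * β := by
      have h2 := hΛ.corner
      rw [← he1] at h2
      have h3 : e1 - lam / (KK s : ℝ) ^ 2 = ((KK s : ℝ) ^ 2 * e1 - lam) / (KK s : ℝ) ^ 2 := by
        rw [sub_div, mul_div_cancel_left₀ _ hKpos.ne']
      rw [h3, abs_div, abs_of_pos hKpos, div_le_iff₀ hKpos]
      refine h2.trans ?_
      have h4 : (KK s : ℝ) ^ 2 + 1 ≤ Bd * (KK s : ℝ) ^ 2 := by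
        have : (0 : ℝ) ≤ NN := Nat.cast_nonneg _
        rw [hBd]
        nlinarith
      calc ((KK s : ℝ) ^ 2 + 1) * β ≤ (Bd * (KK s : ℝ) ^ 2) * β :=
            mul_le_mul_of_nonneg_right h4 hβ
        _ = Bd * β * (KK s : ℝ) ^ 2 := by ring
    have g1' : |e1 - lam / (KK s : ℝ) ^ 2| ≤ 2 * β := by
      have h2 := hΛ.corner
      rw [← he1] at h2
      have h3 : e1 - lam / (KK s : ℝ) ^ 2 = ((KK s : ℝ) ^ 2 * e1 - lam) / (KK s : ℝ) ^ 2 := by
        rw [sub_div, mul_div_cancel_left₀ _ hKpos.ne']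
      rw [h3, abs_div, abs_of_pos hKpos, div_le_iff₀ hKpos]
      refine h2.trans ?_
      nlinarith
    have g2 : |e2 - lam / (KK s : ℝ) ^ 2| ≤ Bd * β := by
      have h2 := hΛ.marker hs
      rw [← he1, ← he2] at h2
      have h3 : e2 - lam / (KK s : ℝ) ^ 2 = (e2 - e1) + (e1 - lam / (KK s : ℝ) ^ 2) := by ring
      rw [h3]
      refine (abs_add_le _ _).trans ?_
      calc |e2 - e1| + |e1 - lam / (KK s : ℝ) ^ 2| ≤ 2 * ((NN : ℝ) + 1) * β + 2 * β :=
            add_le_add h2 g1'
        _ = Bd * β := by rw [hBd]; ring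
    have key : L - (c0 + ∑ i ∈ DA, (c1 i + c2 i) / (KK s : ℝ) ^ 2) * lam =
        (L + (-1) * (c0 * lam + ∑ i ∈ DA, (c1 i * e1 + c2 i * e2))) +
        ∑ i ∈ DA, (c1 i * (e1 - lam / (KK s : ℝ) ^ 2) + c2 i * (e2 - lam / (KK s : ℝ) ^ 2)) := by
      have h5 : ∑ i ∈ DA, (c1 i * (e1 - lam / (KK s : ℝ) ^ 2) + c2 i * (e2 - lam / (KK s : ℝ) ^ 2))
          = ∑ i ∈ DA, (c1 i * e1 + c2 i * e2) - (∑ i ∈ DA, (c1 i + c2 i) / (KK s : ℝ) ^ 2) * lam := by
        rw [Finset.sum_mul, ← Finset.sum_sub_distrib]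
        apply Finset.sum_congr rfl
        intro i _
        ring
      rw [h5]
      ring
    rw [key]
    refine (abs_add_le _ _).trans ?_
    rw [add_mul]
    refine add_le_add hb ?_
    calc |∑ i ∈ DA, (c1 i * (e1 - lam / (KK s : ℝ) ^ 2) + c2 i * (e2 - lam / (KK s : ℝ) ^ 2))|
        ≤ ∑ i ∈ DA, |c1 i * (e1 - lam / (KK s : ℝ) ^ 2) + c2 i * (e2 - lam / (KK s : ℝ) ^ 2)| :=
          Finset.abs_sum_le_sum_abs _ _
      _ ≤ ∑ i ∈ DA, (|c1 i| + |c2 i|) * (Bd * β) := by
          apply Finset.sum_le_sum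
          intro i _
          refine (abs_add_le _ _).trans ?_
          rw [abs_mul, abs_mul, add_mul]
          exact add_le_add (mul_le_mul_of_nonneg_left g1 (abs_nonneg _))
            (mul_le_mul_of_nonneg_left g2 (abs_nonneg _))
      _ = A * Bd * β := by rw [← Finset.sum_mul, hA]; ring
  · rintro Z ⟨τ, -, b, hb⟩
    have hmem : ∀ i ∈ DA, S (-w) Z i = cfg s τ (i - w + b) := by
      intro i hi
      have h1 : S (-w) Z i = Z (i - w) := by simp only [S, sub_eq_add_neg]
      rw [h1]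
      apply hb
      have h2 := hd i hi i0 hi0 0
      have h3 := hd i hi i0 hi0 1
      rw [abs_lt] at h2 h3
      rw [mem_box, hw]
      simp only [Pi.sub_apply, off_zero, off_one]
      push_cast
      omega
    have := hlin (S (-w) Z) ?_
    · simp only [hφ]
      rw [this]
      ring
    · intro i hi j hj hzi hzj
      rw [hmem i hi] at hzi
      rw [hmem j hj] at hzj
      have h2 := hd i hi j hj 0
      have h3 := hd i hi j hj 1
      have := special_far hs hzi hzj ?_ ?_
      · exact sub_left_injective (add_right_cancel this)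
      · have e : (i - w + b) 0 - (j - w + b) 0 = i 0 - j 0 := by
          simp only [Pi.sub_apply, Pi.add_apply]; ring
        rw [e]; exact h2
      · have e : (i - w + b) 1 - (j - w + b) 1 = i 1 - j 1 := by
          simp only [Pi.sub_apply, Pi.add_apply]; ring
        rw [e]; exact h3
  · intro Z
    have hi01 : ∀ (p : Prop) [Decidable p], |ind p| ≤ 1 := by
      intro p _
      exact ind_le p
    simp only [hφ]
    refine (abs_add_le _ _).trans ?_
    rw [abs_mul, abs_neg, abs_one, one_mul, hM, add_assoc]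
    refine add_le_add (hi01 _) ((abs_add_le _ _).trans (add_le_add le_rfl ?_))
    refine (Finset.abs_sum_le_sum_abs _ _).trans ?_
    rw [hA]
    apply Finset.sum_le_sum
    intro i _
    refine (abs_add_le _ _).trans ?_
    rw [abs_mul, abs_mul]
    exact add_le_add (mul_le_of_le_one_right (abs_nonneg _) (hi01 _))
      (mul_le_of_le_one_right (abs_nonneg _) (hi01 _))

/-! ## Excitations -/

lemma S_S (w a : Pos) (Z : Cf) : S w (S a Z) = S (w + a) Z := by
  funext i
  simp only [S, add_assoc]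

lemma support_finite {X Y : Cf} (hfin : {i | Y i ≠ X i}.Finite) {φ : Cf → ℝ} (hφ : Local φ) :
    (Function.support fun a => φ (S a Y) - φ (S a X)).Finite := by
  obtain ⟨W, hW⟩ := hφ
  apply Set.Finite.subset (Set.Finite.biUnion W.finite_toSet
    (fun v _ => hfin.preimage ((add_right_injective v).injOn)))
  intro a ha
  by_contra hc
  apply ha
  simp only [Set.mem_iUnion, not_exists] at hc
  beta_reduce
  rw [hW (S a Y) (S a X), sub_self]
  intro v hv
  by_contra h
  exact hc v hv h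

theorem func_exc {X Y : Cf} (hfin : {i | Y i ≠ X i}.Finite) (hX : ∀ a, Good s (S a X))
    (B : Finset Pos) (hB : ∀ a, a ∉ B → Good s (S a Y)) :
    Func s (fun φ => ∑ᶠ a, (φ (S a Y) - φ (S a X))) 0 B.card where
  add φ ψ hφ hψ := by
    rw [← finsum_add_distrib (support_finite hfin hφ) (support_finite hfin hψ)]
    apply finsum_congr
    intro a
    ring
  smul c φ hφ := by
    rw [← smul_eq_mul, smul_finsum' _ (support_finite hfin hφ)]
    apply finsum_congr
    intro a
    rw [smul_eq_mul]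
    ring
  const c := by simp
  shift w φ hφ := by
    simp only [S_S]
    exact finsum_comp_equiv (Equiv.addLeft w) (f := fun a => φ (S a Y) - φ (S a X))
  bound φ M hφ h0 hM := by
    have hM0 : 0 ≤ M := (abs_nonneg _).trans (hM X)
    rw [finsum_eq_sum_of_support_subset _ (s := B) ?_]
    · calc |∑ a ∈ B, (φ (S a Y) - φ (S a X))| ≤ ∑ a ∈ B, |φ (S a Y) - φ (S a X)| :=
            Finset.abs_sum_le_sum_abs _ _
        _ ≤ ∑ a ∈ B, M := Finset.sum_le_sum fun a _ => by
            rw [h0 _ (hX a), sub_zero]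
            exact hM _
        _ = M * B.card := by simp [mul_comm]
    · intro a ha
      by_contra hn
      apply ha
      beta_reduce
      rw [h0 _ (hX a), h0 _ (hB a hn), sub_zero]
  nonneg := Nat.cast_nonneg _

/-! ## Invariant measures -/

lemma Local.measurable {φ : Cf → ℝ} (hφ : Local φ) : Measurable φ := by
  obtain ⟨W, hW⟩ := hφ
  have h : φ = (fun z : W → Fin 3 => φ (fun i => if h : i ∈ W then z ⟨i, h⟩ else 0)) ∘
      (fun Z : Cf => fun i : W => Z i) := by
    funext Z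
    apply hW
    intro v hv
    simp [hv]
  rw [h]
  exact (measurable_of_finite _).comp (measurable_pi_lambda _ fun i => measurable_pi_apply _)

lemma Local.bdd {φ : Cf → ℝ} (hφ : Local φ) : ∃ M : ℝ, ∀ Z, ‖φ Z‖ ≤ M := by
  obtain ⟨W, hW⟩ := hφ
  set g : (W → Fin 3) → ℝ := fun z => ‖φ (fun i => if h : i ∈ W then z ⟨i, h⟩ else 0)‖ with hg
  refine ⟨∑ z, g z, fun Z => ?_⟩
  have h1 : ‖φ Z‖ = g (fun i : W => Z i) := by
    simp only [hg]
    congr 1
    apply hW
    intro v hv
    simp [hv]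
  rw [h1]
  exact Finset.single_le_sum (f := g) (fun z _ => norm_nonneg _)
    (Finset.mem_univ (fun i : W => Z i))

lemma Local.integrable {φ : Cf → ℝ} (hφ : Local φ) (μ : Measure Cf) [IsProbabilityMeasure μ] :
    Integrable φ μ := by
  obtain ⟨M, hM⟩ := hφ.bdd
  exact Integrable.of_bound hφ.measurable.aestronglyMeasurable M (Filter.Eventually.of_forall hM)

theorem func_meas (μ : Measure Cf) [IsProbabilityMeasure μ]
    (hinv : ∀ a : Pos, Measure.map (fun X : Cf => fun i => X (i - a)) μ = μ)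
    (hgood : ∀ᵐ Z ∂μ, Good s Z) : Func s (fun φ => ∫ Z, φ Z ∂μ) 1 0 where
  add φ ψ hφ hψ := integral_add (hφ.integrable μ) (hψ.integrable μ)
  smul c φ hφ := integral_const_mul c φ
  const c := by simp
  shift w φ hφ := by
    have h1 : (fun Z : Cf => φ (S w Z)) = fun Z => φ ((fun X : Cf => fun i => X (i - (-w))) Z) := by
      funext Z
      simp only [S, sub_neg_eq_add]
      rfl
    rw [h1]
    rw [← integral_map (f := φ) (μ := μ)]
    · rw [hinv]
    · apply Measurable.aemeasurable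
      exact measurable_pi_lambda _ fun i => measurable_pi_apply _
    · exact hφ.measurable.aestronglyMeasurable
  bound φ M hφ h0 hM := by
    have : ∫ Z, φ Z ∂μ = 0 := by
      rw [← integral_zero Cf ℝ (μ := μ)]
      exact integral_congr_ae (hgood.mono fun Z hZ => h0 Z hZ)
    rw [this, abs_zero, mul_zero]
  nonneg := le_rfl

end Pool.Agent.H564R3.SBC
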